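import Mathlib

/-!
# Upper triangular times lower unipotent equals orthogonal
-/

set_option autoImplicit false

open Matrix Finset

namespace Pool.Agent.R943.LieSL

/-- A square submatrix of an orthogonal matrix has determinant at most one. -/
theorem abs_det_submatrix_le_one {m k : Type*} [Fintype m] [DecidableEq m] [Fintype k]
    [DecidableEq k] (o : Matrix m m ℝ) (ho : oᵀ * o = 1) (f : k → m)
    (hf : Function.Injective f) : |(o.submatrix f f).det| ≤ 1 := by
  set B := o.submatrix f f with hB
  have hnorm : ∀ x : k → ℝ, (B *ᵥ x) ⬝ᵥ (B *ᵥ x) ≤ x ⬝ᵥ x := by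
    intro x
    let x' : m → ℝ := fun j => ∑ i, if f i = j then x i else 0
    have hx' : ∀ i, x' (f i) = x i := by
      intro i
      simp only [x']
      rw [Finset.sum_eq_single i]
      · simp
      · intro b _ hb
        rw [if_neg (fun h => hb (hf h))]
      · intro h; exact absurd (Finset.mem_univ i) h
    have hx0 : ∀ j, (∀ i, f i ≠ j) → x' j = 0 := by
      intro j hj
      simp only [x']
      exact Finset.sum_eq_zero fun i _ => if_neg (hj i)
    have hsum : ∀ g : m → ℝ, ∑ j, g j * x' j = ∑ i, g (f i) * x i := by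
      intro g
      rw [← Finset.sum_subset (s₁ := Finset.univ.image f) (Finset.subset_univ _)]
      · rw [Finset.sum_image (fun a _ b _ hab => hf hab)]
        exact Finset.sum_congr rfl fun i _ => by rw [hx']
      · intro j _ hj
        rw [hx0 j, mul_zero]
        intro i hi
        exact hj (Finset.mem_image.2 ⟨i, Finset.mem_univ i, hi⟩)
    have h1 : ∀ i, (B *ᵥ x) i = (o *ᵥ x') (f i) := by
      intro i
      simp only [hB, mulVec, dotProduct, submatrix_apply]
      exact (hsum (fun j => o (f i) j)).symm
    have h2 : (o *ᵥ x') ⬝ᵥ (o *ᵥ x') = x' ⬝ᵥ x' := by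
      rw [dotProduct_mulVec, ← mulVec_transpose, mulVec_mulVec, ho, one_mulVec]
    have h3 : x' ⬝ᵥ x' = x ⬝ᵥ x := by
      simp only [dotProduct]
      rw [hsum x']
      exact Finset.sum_congr rfl fun i _ => by rw [hx']
    have h4 : (B *ᵥ x) ⬝ᵥ (B *ᵥ x) ≤ (o *ᵥ x') ⬝ᵥ (o *ᵥ x') := by
      simp only [dotProduct, h1]
      rw [← Finset.sum_image (f := fun j => (o *ᵥ x') j * (o *ᵥ x') j) (s := Finset.univ) (g := f)
        (fun a _ b _ hab => hf hab)]
      exact Finset.sum_le_sum_of_subset_of_nonneg (Finset.subset_univ _)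
        fun j _ _ => mul_self_nonneg _
    linarith
  have hC : (Bᵀ * B).PosSemidef := by
    have := Matrix.posSemidef_conjTranspose_mul_self B
    rwa [conjTranspose_eq_transpose_of_trivial] at this
  have hH : (Bᵀ * B).IsHermitian := hC.isHermitian
  have h0 : ∀ i, 0 ≤ hH.eigenvalues i := fun i => hC.eigenvalues_nonneg i
  have h1 : ∀ i, hH.eigenvalues i ≤ 1 := by
    intro i
    rw [hH.eigenvalues_eq i]
    set v : k → ℝ := ⇑(hH.eigenvectorBasis i) with hv
    have hvv : v ⬝ᵥ v = 1 := by
      have h5 := hH.eigenvectorBasis.orthonormal.1 i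
      have h6 : ‖hH.eigenvectorBasis i‖ ^ 2 = 1 := by rw [h5]; norm_num
      rw [EuclideanSpace.norm_sq_eq] at h6
      rw [← h6]
      simp only [dotProduct, hv, Real.norm_eq_abs, sq_abs]
      exact Finset.sum_congr rfl fun j _ => by ring
    have h7 : RCLike.re (star v ⬝ᵥ (Bᵀ * B) *ᵥ v) = (B *ᵥ v) ⬝ᵥ (B *ᵥ v) := by
      rw [star_trivial, ← mulVec_mulVec, dotProduct_mulVec, ← mulVec_transpose,
        transpose_transpose]
      rfl
    rw [h7]
    exact (hnorm v).trans hvv.le
  have hdet : (Bᵀ * B).det ≤ 1 := by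
    rw [hH.det_eq_prod_eigenvalues]
    have h8 : ∏ i, hH.eigenvalues i ≤ 1 := Finset.prod_le_one (fun i _ => h0 i) (fun i _ => h1 i)
    exact_mod_cast h8
  rw [det_mul, det_transpose] at hdet
  rw [abs_le_one_iff_mul_self_le_one]
  exact hdet

variable {n : ℕ}

/-- The trailing principal minors of an upper triangular matrix `s` with `s t` orthogonal for a
lower unipotent matrix `t`. -/
theorem prod_le_one {s t : Matrix (Fin n) (Fin n) ℝ} (hs : ∀ i j, j < i → s i j = 0)
    (hpos : ∀ i, 0 < s i i) (ht : ∀ i j, i < j → t i j = 0) (ht1 : ∀ i, t i i = 1)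
    (ho : (s * t)ᵀ * (s * t) = 1) (k : ℕ) :
    ∏ i : {i : Fin n // k ≤ (i : ℕ)}, s i i ≤ 1 := by
  let f : {i : Fin n // k ≤ (i : ℕ)} → Fin n := Subtype.val
  have hmul : (s * t).submatrix f f = s.submatrix f f * t.submatrix f f := by
    ext i j
    simp only [submatrix_apply, mul_apply]
    have h1 := Fintype.sum_subtype_add_sum_subtype (fun l : Fin n => k ≤ (l : ℕ))
      (fun l => s (f i) l * t l (f j))
    rw [← h1]
    have h2 : ∑ l : {l : Fin n // ¬ k ≤ (l : ℕ)}, s (f i) l * t l (f j) = 0 := by
      apply Finset.sum_eq_zero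
      intro l _
      rw [hs, zero_mul]
      have h3 := i.2
      have h4 := l.2
      rw [Fin.lt_def]
      simp only [f]
      omega
    rw [h2, add_zero]
  have hds : (s.submatrix f f).det = ∏ i : {i : Fin n // k ≤ (i : ℕ)}, s i i := by
    rw [det_of_isUpperTriangular]
    · rfl
    · intro i j hij
      exact hs _ _ hij
  have hdt : (t.submatrix f f).det = 1 := by
    rw [det_of_isLowerTriangular]
    · exact Finset.prod_eq_one fun i _ => ht1 _
    · intro i j hij
      exact ht _ _ hij
  have h5 := abs_det_submatrix_le_one (s * t) ho f Subtype.val_injective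
  rw [hmul, det_mul, hds, hdt, mul_one] at h5
  exact (le_abs_self _).trans h5

/-- The diagonal of `s` is trivial. -/
theorem diag_eq_one {s t : Matrix (Fin n) (Fin n) ℝ} (hs : ∀ i j, j < i → s i j = 0)
    (hpos : ∀ i, 0 < s i i) (hlog : ∑ i, Real.log (s i i) = 0)
    (hlog' : ∑ i : Fin n, (i : ℝ) * Real.log (s i i) = 0)
    (ht : ∀ i j, i < j → t i j = 0) (ht1 : ∀ i, t i i = 1)
    (ho : (s * t)ᵀ * (s * t) = 1) (i : Fin n) : s i i = 1 := by
  let S : ℕ → ℝ := fun k => ∑ i : Fin n, if k ≤ (i : ℕ) then Real.log (s i i) else 0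
  have hS : ∀ k, S k ≤ 0 := by
    intro k
    have h1 := prod_le_one hs hpos ht ht1 ho k
    have h2 : S k = Real.log (∏ i : {i : Fin n // k ≤ (i : ℕ)}, s i i) := by
      rw [Real.log_prod (fun i _ => (hpos _).ne')]
      simp only [S]
      rw [← Finset.sum_filter]
      exact (Finset.sum_subtype _ (by simp) (fun i => Real.log (s i i)))
    rw [h2]
    exact Real.log_nonpos (Finset.prod_nonneg fun i _ => (hpos _).le) h1
  have hsum : ∑ k ∈ Finset.range n, S k = 0 := by
    simp only [S]
    rw [Finset.sum_comm]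
    have h3 : ∀ i : Fin n, ∑ k ∈ Finset.range n, (if k ≤ (i : ℕ) then Real.log (s i i) else 0) =
        (i : ℝ) * Real.log (s i i) + Real.log (s i i) := by
      intro i
      rw [← Finset.sum_filter, Finset.sum_const]
      have h4 : (Finset.range n).filter (fun k => k ≤ (i : ℕ)) = Finset.range (i + 1) := by
        ext k
        simp only [Finset.mem_filter, Finset.mem_range]
        have := i.2
        omega
      rw [h4, Finset.card_range, nsmul_eq_mul]
      push_cast
      ring
    rw [Finset.sum_congr rfl fun i _ => h3 i, Finset.sum_add_distrib, hlog, hlog', add_zero]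
  have hzero : ∀ k, S k = 0 := by
    intro k
    by_cases hk : k < n
    · exact (Finset.sum_eq_zero_iff_of_nonpos fun k _ => hS k).1 hsum k (Finset.mem_range.2 hk)
    · simp only [S]
      apply Finset.sum_eq_zero
      intro i _
      rw [if_neg]
      have := i.2
      omega
  have h5 : S i - S (i + 1) = Real.log (s i i) := by
    simp only [S]
    rw [← Finset.sum_sub_distrib, Finset.sum_eq_single i]
    · simp
    · intro j _ hj
      have hj' : (j : ℕ) ≠ i := fun h => hj (Fin.ext h)
      by_cases h6 : (i : ℕ) ≤ j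
      · rw [if_pos h6, if_pos (by omega), sub_self]
      · rw [if_neg h6, if_neg (by omega), sub_self]
    · intro h; exact absurd (Finset.mem_univ i) h
  rw [hzero, hzero, sub_zero] at h5
  have h6 := h5.symm
  rcases Real.log_eq_zero.1 h6 with h7 | h7 | h7
  · exact absurd h7 (hpos i).ne'
  · exact h7
  · linarith [hpos i]

/-- If `s` is upper triangular with positive diagonal entries `a_i` satisfying `∑ log a_i = 0` and
`∑ i log a_i = 0`, `t` is lower unipotent and `s t` is orthogonal then `s = t = 1`. -/
theorem eq_one_of_orthogonal {s t : Matrix (Fin n) (Fin n) ℝ} (hs : ∀ i j, j < i → s i j = 0)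
    (hpos : ∀ i, 0 < s i i) (hlog : ∑ i, Real.log (s i i) = 0)
    (hlog' : ∑ i : Fin n, (i : ℝ) * Real.log (s i i) = 0)
    (ht : ∀ i j, i < j → t i j = 0) (ht1 : ∀ i, t i i = 1)
    (ho : (s * t)ᵀ * (s * t) = 1) : s = 1 ∧ t = 1 := by
  have hdiag := diag_eq_one hs hpos hlog hlog' ht ht1 ho
  have ho' : (s * t) * (s * t)ᵀ = 1 := mul_eq_one_comm.1 ho
  have key : ∀ i : Fin n, (∀ j, s j i = (1 : Matrix (Fin n) (Fin n) ℝ) j i) ∧
      (∀ j, t i j = (1 : Matrix (Fin n) (Fin n) ℝ) i j) := by
    intro i
    induction i using WellFoundedGT.induction with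
    | ind i ih =>
      have hcol : ∀ j, (s * t) j i = s j i := by
        intro j
        rw [mul_apply, Finset.sum_eq_single i]
        · rw [ht1, mul_one]
        · intro l _ hl
          rcases lt_or_gt_of_ne hl with h | h
          · rw [ht l i h, mul_zero]
          · rw [(ih l h).2 i, one_apply_ne hl, mul_zero]
        · intro h; exact absurd (Finset.mem_univ i) h
      have hn1 : ∑ j, s j i * s j i = 1 := by
        have h1 := congrFun (congrFun ho i) i
        rw [mul_apply, one_apply_eq] at h1
        rw [← h1]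
        exact Finset.sum_congr rfl fun j _ => by rw [transpose_apply, hcol]
      have hs0 : ∀ j, j ≠ i → s j i = 0 := by
        rw [← Finset.add_sum_erase _ _ (Finset.mem_univ i), hdiag, mul_one] at hn1
        have h2 : ∑ j ∈ Finset.univ.erase i, s j i * s j i = 0 := by linarith
        intro j hj
        have h3 := (Finset.sum_eq_zero_iff_of_nonneg fun j _ => mul_self_nonneg (s j i)).1 h2 j
          (Finset.mem_erase.2 ⟨hj, Finset.mem_univ j⟩)
        exact mul_self_eq_zero.1 h3
      have hs1 : ∀ j, s j i = (1 : Matrix (Fin n) (Fin n) ℝ) j i := by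
        intro j
        by_cases hj : j = i
        · rw [hj, hdiag, one_apply_eq]
        · rw [hs0 j hj, one_apply_ne hj]
      refine ⟨hs1, ?_⟩
      have hrow : ∀ j, (s * t) i j = t i j := by
        intro j
        rw [mul_apply, Finset.sum_eq_single i]
        · rw [hdiag, one_mul]
        · intro l _ hl
          rcases lt_or_gt_of_ne hl with h | h
          · rw [hs i l h, zero_mul]
          · rw [(ih l h).1 i, one_apply_ne (Ne.symm hl), zero_mul]
        · intro h; exact absurd (Finset.mem_univ i) h
      have hn2 : ∑ j, t i j * t i j = 1 := by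
        have h1 := congrFun (congrFun ho' i) i
        rw [mul_apply, one_apply_eq] at h1
        rw [← h1]
        exact Finset.sum_congr rfl fun j _ => by rw [transpose_apply, hrow]
      rw [← Finset.add_sum_erase _ _ (Finset.mem_univ i), ht1, mul_one] at hn2
      have h2 : ∑ j ∈ Finset.univ.erase i, t i j * t i j = 0 := by linarith
      intro j
      by_cases hj : j = i
      · rw [hj, ht1, one_apply_eq]
      · have h3 := (Finset.sum_eq_zero_iff_of_nonneg fun j _ => mul_self_nonneg (t i j)).1 h2 j
          (Finset.mem_erase.2 ⟨hj, Finset.mem_univ j⟩)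
        rw [mul_self_eq_zero.1 h3, one_apply_ne (Ne.symm hj)]
  constructor
  · ext i j
    exact (key j).1 i
  · ext i j
    exact (key i).2 j

end Pool.Agent.R943.LieSL
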