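import Pool.Agent.R943.LieSL.Defs
import Pool.Agent.R943.LieSL.Algebra

/-!
# Three submanifolds of `SL(n, ℝ)` with the triple product property
-/

set_option autoImplicit false

open Matrix Module Set
open scoped Matrix.Norms.Operator ContDiff
open Pool.Agent.W964.LieExp (quotients TripleProductProperty)

namespace Pool.Agent.R943.LieSL

variable {n : ℕ}

/-! ### The three sets -/

/-- The upper triangular matrices with positive diagonal entries `a_i` such that
`∑ log a_i = ∑ i log a_i = 0`. -/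
def setB (n : ℕ) : Set (SpecialLinearGroup (Fin n) ℝ) :=
  {g | (∀ i j, j < i → g i j = 0) ∧ (∀ i, 0 < g i i) ∧ ∑ i, Real.log (g i i) = 0 ∧
    ∑ i : Fin n, (i : ℝ) * Real.log (g i i) = 0}

/-- The lower triangular matrices with diagonal entries `1`. -/
def setN (n : ℕ) : Set (SpecialLinearGroup (Fin n) ℝ) :=
  {g | (∀ i j, i < j → g i j = 0) ∧ ∀ i, g i i = 1}

/-- The orthogonal matrices `g` with `1 + g` invertible. -/
def setK (n : ℕ) : Set (SpecialLinearGroup (Fin n) ℝ) :=
  {g | (g : Matrix (Fin n) (Fin n) ℝ)ᵀ * (g : Matrix (Fin n) (Fin n) ℝ) = 1 ∧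
    IsUnit (1 + (g : Matrix (Fin n) (Fin n) ℝ))}

/-! ### Group closure -/

theorem diag_mul_upper {A B : Matrix (Fin n) (Fin n) ℝ} (hA : ∀ i j, j < i → A i j = 0)
    (hB : ∀ i j, j < i → B i j = 0) (i : Fin n) : (A * B) i i = A i i * B i i := by
  rw [mul_apply, Finset.sum_eq_single i]
  · intro l _ hl
    rcases lt_or_gt_of_ne hl with h | h
    · rw [hA i l h, zero_mul]
    · rw [hB l i h, mul_zero]
  · intro h; exact absurd (Finset.mem_univ i) h

theorem diag_mul_lower {A B : Matrix (Fin n) (Fin n) ℝ} (hA : ∀ i j, i < j → A i j = 0)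
    (hB : ∀ i j, i < j → B i j = 0) (i : Fin n) : (A * B) i i = A i i * B i i := by
  rw [mul_apply, Finset.sum_eq_single i]
  · intro l _ hl
    rcases lt_or_gt_of_ne hl with h | h
    · rw [hB l i h, mul_zero]
    · rw [hA i l h, zero_mul]
  · intro h; exact absurd (Finset.mem_univ i) h

theorem upper_mul {A B : Matrix (Fin n) (Fin n) ℝ} (hA : ∀ i j, j < i → A i j = 0)
    (hB : ∀ i j, j < i → B i j = 0) : ∀ i j, j < i → (A * B) i j = 0 := by
  intro i j hij
  rw [mul_apply]
  apply Finset.sum_eq_zero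
  intro l _
  rcases lt_or_ge l i with h | h
  · rw [hA i l h, zero_mul]
  · rw [hB l j (lt_of_lt_of_le hij h), mul_zero]

theorem lower_mul {A B : Matrix (Fin n) (Fin n) ℝ} (hA : ∀ i j, i < j → A i j = 0)
    (hB : ∀ i j, i < j → B i j = 0) : ∀ i j, i < j → (A * B) i j = 0 := by
  intro i j hij
  rw [mul_apply]
  apply Finset.sum_eq_zero
  intro l _
  rcases lt_or_ge i l with h | h
  · rw [hA i l h, zero_mul]
  · rw [hB l j (lt_of_le_of_lt h hij), mul_zero]

theorem upper_inv {g : SpecialLinearGroup (Fin n) ℝ} (hg : ∀ i j, j < i → g i j = 0) :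
    ∀ i j, j < i → (g⁻¹ : SpecialLinearGroup (Fin n) ℝ) i j = 0 := by
  have h1 : BlockTriangular (g : Matrix (Fin n) (Fin n) ℝ) id := fun i j hij => hg i j hij
  have : Invertible (g : Matrix (Fin n) (Fin n) ℝ) :=
    Matrix.invertibleOfIsUnitDet _ (by rw [g.det_coe]; exact isUnit_one)
  have h2 := blockTriangular_inv_of_blockTriangular h1
  intro i j hij
  have h3 := h2 (i := i) (j := j) hij
  have h4 : ((g⁻¹ : SpecialLinearGroup (Fin n) ℝ) : Matrix (Fin n) (Fin n) ℝ) =
      (g : Matrix (Fin n) (Fin n) ℝ)⁻¹ := by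
    rw [Matrix.SpecialLinearGroup.coe_inv, Matrix.inv_def, g.det_coe, Ring.inverse_one, one_smul]
  rw [← h4] at h3
  exact h3

theorem lower_inv {g : SpecialLinearGroup (Fin n) ℝ} (hg : ∀ i j, i < j → g i j = 0) :
    ∀ i j, i < j → (g⁻¹ : SpecialLinearGroup (Fin n) ℝ) i j = 0 := by
  have h1 : ∀ i j, j < i → (g.transpose) i j = 0 := by
    intro i j hij
    exact hg j i hij
  have h2 := upper_inv h1
  intro i j hij
  have h3 := h2 j i hij
  have h4 : (g.transpose)⁻¹ = (g⁻¹).transpose := by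
    rw [inv_eq_iff_mul_eq_one]
    apply Subtype.ext
    simp only [Matrix.SpecialLinearGroup.coe_mul, Matrix.SpecialLinearGroup.coe_transpose,
      Matrix.SpecialLinearGroup.coe_one]
    rw [← transpose_mul, ← Matrix.SpecialLinearGroup.coe_mul, inv_mul_cancel, Matrix.SpecialLinearGroup.coe_one,
      transpose_one]
  rw [h4] at h3
  exact h3

theorem setB_div {g h : SpecialLinearGroup (Fin n) ℝ} (hg : g ∈ setB n) (hh : h ∈ setB n) :
    g * h⁻¹ ∈ setB n := by
  obtain ⟨g1, g2, g3, g4⟩ := hg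
  obtain ⟨h1, h2, h3, h4⟩ := hh
  have k1 := upper_inv h1
  have k2 : ∀ i, (h⁻¹ : SpecialLinearGroup (Fin n) ℝ) i i = (h i i)⁻¹ := by
    intro i
    have e1 := diag_mul_upper h1 k1 i
    rw [← Matrix.SpecialLinearGroup.coe_mul, mul_inv_cancel, Matrix.SpecialLinearGroup.coe_one,
      one_apply_eq] at e1
    exact eq_inv_of_mul_eq_one_right e1.symm
  have k3 : ∀ i, (g * h⁻¹ : SpecialLinearGroup (Fin n) ℝ) i i = g i i * (h i i)⁻¹ := by
    intro i
    rw [← k2]
    exact diag_mul_upper g1 k1 i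
  have k4 : ∀ i, Real.log ((g * h⁻¹ : SpecialLinearGroup (Fin n) ℝ) i i) =
      Real.log (g i i) - Real.log (h i i) := by
    intro i
    rw [k3, Real.log_mul (g2 i).ne' (inv_ne_zero (h2 i).ne'), Real.log_inv, sub_eq_add_neg]
  refine ⟨?_, ?_, ?_, ?_⟩
  · exact upper_mul g1 k1
  · intro i
    rw [k3]
    exact mul_pos (g2 i) (inv_pos.2 (h2 i))
  · rw [Finset.sum_congr rfl fun i _ => k4 i, Finset.sum_sub_distrib, g3, h3, sub_zero]
  · have : ∑ i : Fin n, (i : ℝ) * Real.log ((g * h⁻¹ : SpecialLinearGroup (Fin n) ℝ) i i) =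
        ∑ i : Fin n, ((i : ℝ) * Real.log (g i i) - (i : ℝ) * Real.log (h i i)) :=
      Finset.sum_congr rfl fun i _ => by rw [k4]; ring
    rw [this, Finset.sum_sub_distrib, g4, h4, sub_zero]

theorem setN_div {g h : SpecialLinearGroup (Fin n) ℝ} (hg : g ∈ setN n) (hh : h ∈ setN n) :
    g * h⁻¹ ∈ setN n := by
  obtain ⟨g1, g2⟩ := hg
  obtain ⟨h1, h2⟩ := hh
  have k1 := lower_inv h1
  have k2 : ∀ i, (h⁻¹ : SpecialLinearGroup (Fin n) ℝ) i i = 1 := by
    intro i
    have e1 := diag_mul_lower h1 k1 i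
    rw [← Matrix.SpecialLinearGroup.coe_mul, mul_inv_cancel, Matrix.SpecialLinearGroup.coe_one,
      one_apply_eq, h2, one_mul] at e1
    exact e1.symm
  refine ⟨lower_mul g1 k1, ?_⟩
  intro i
  have e2 := diag_mul_lower g1 k1 i
  rw [g2, k2, one_mul] at e2
  exact e2

/-- **The triple product property.** -/
theorem tpp (n : ℕ) : TripleProductProperty (setB n) (setN n) (setK n) := by
  rintro s ⟨x, hx, x', hx', rfl⟩ t ⟨y, hy, y', hy', rfl⟩ u ⟨z, hz, z', hz', rfl⟩ h1
  have hs := setB_div hx hx'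
  have ht := setN_div hy hy'
  set s := x * x'⁻¹ with hsdef
  set t := y * y'⁻¹ with htdef
  have hst : s * t = z' * z⁻¹ := by
    have h2 : s * t = (z * z'⁻¹)⁻¹ := eq_inv_of_mul_eq_one_left h1
    rw [h2]; group
  have hortho : (((s * t : SpecialLinearGroup (Fin n) ℝ) : Matrix (Fin n) (Fin n) ℝ))ᵀ *
      ((s * t : SpecialLinearGroup (Fin n) ℝ) : Matrix (Fin n) (Fin n) ℝ) = 1 := by
    have hzi : ((z⁻¹ : SpecialLinearGroup (Fin n) ℝ) : Matrix (Fin n) (Fin n) ℝ) =
        (z : Matrix (Fin n) (Fin n) ℝ)ᵀ := by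
      have e1 : (z : Matrix (Fin n) (Fin n) ℝ) *
          ((z⁻¹ : SpecialLinearGroup (Fin n) ℝ) : Matrix (Fin n) (Fin n) ℝ) = 1 := by
        rw [← Matrix.SpecialLinearGroup.coe_mul, mul_inv_cancel, Matrix.SpecialLinearGroup.coe_one]
      calc ((z⁻¹ : SpecialLinearGroup (Fin n) ℝ) : Matrix (Fin n) (Fin n) ℝ) =
          ((z : Matrix (Fin n) (Fin n) ℝ)ᵀ * (z : Matrix (Fin n) (Fin n) ℝ)) *
          ((z⁻¹ : SpecialLinearGroup (Fin n) ℝ) : Matrix (Fin n) (Fin n) ℝ) := by
            rw [hz.1, one_mul]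
        _ = (z : Matrix (Fin n) (Fin n) ℝ)ᵀ := by rw [mul_assoc, e1, mul_one]
    rw [hst, Matrix.SpecialLinearGroup.coe_mul, hzi, transpose_mul, transpose_transpose]
    calc (z : Matrix (Fin n) (Fin n) ℝ) * (z' : Matrix (Fin n) (Fin n) ℝ)ᵀ *
        ((z' : Matrix (Fin n) (Fin n) ℝ) * (z : Matrix (Fin n) (Fin n) ℝ)ᵀ) =
        (z : Matrix (Fin n) (Fin n) ℝ) * ((z' : Matrix (Fin n) (Fin n) ℝ)ᵀ *
        (z' : Matrix (Fin n) (Fin n) ℝ)) * (z : Matrix (Fin n) (Fin n) ℝ)ᵀ := by
          simp only [mul_assoc]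
      _ = 1 := by rw [hz'.1, mul_one]; exact mul_eq_one_comm.1 hz.1
  rw [Matrix.SpecialLinearGroup.coe_mul] at hortho
  obtain ⟨e1, e2⟩ := eq_one_of_orthogonal hs.1 hs.2.1 hs.2.2.1 hs.2.2.2 ht.1 ht.2 hortho
  have f1 : s = 1 := Subtype.ext e1
  have f2 : t = 1 := Subtype.ext e2
  refine ⟨f1, f2, ?_⟩
  rwa [f1, f2, one_mul, one_mul] at h1

/-! ### Smoothness of maps between spaces of matrices -/

theorem contDiff_entry (i j : Fin n) :
    ContDiff ℝ ∞ (fun A : Matrix (Fin n) (Fin n) ℝ => A i j) :=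
  (LinearMap.toContinuousLinearMap (Matrix.entryLinearMap ℝ ℝ i j)).contDiff

theorem contDiffOn_matrix {f : Matrix (Fin n) (Fin n) ℝ → Matrix (Fin n) (Fin n) ℝ}
    {s : Set (Matrix (Fin n) (Fin n) ℝ)} (h : ∀ i j, ContDiffOn ℝ ∞ (fun A => f A i j) s) :
    ContDiffOn ℝ ∞ f s := by
  have h1 : f = fun A => ∑ i, ∑ j, f A i j • Matrix.single i j (1 : ℝ) := by
    funext A
    conv_lhs => rw [Matrix.matrix_eq_sum_single (f A)]
    refine Finset.sum_congr rfl fun i _ => Finset.sum_congr rfl fun j _ => ?_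
    rw [Matrix.smul_single, smul_eq_mul, mul_one]
  rw [h1]
  exact ContDiffOn.sum fun i _ => ContDiffOn.sum fun j _ => (h i j).smul contDiffOn_const

/-! ### The logarithmic chart -/

/-- Replace the diagonal entries by their logarithms. -/
noncomputable def logD (A : Matrix (Fin n) (Fin n) ℝ) : Matrix (Fin n) (Fin n) ℝ :=
  Matrix.of fun i j => if i = j then Real.log (A i j) else A i j

/-- Replace the diagonal entries by their exponentials. -/
noncomputable def expD (A : Matrix (Fin n) (Fin n) ℝ) : Matrix (Fin n) (Fin n) ℝ :=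
  Matrix.of fun i j => if i = j then Real.exp (A i j) else A i j

theorem isOpen_posDiag : IsOpen {A : Matrix (Fin n) (Fin n) ℝ | ∀ i, 0 < A i i} := by
  have : {A : Matrix (Fin n) (Fin n) ℝ | ∀ i, 0 < A i i} = ⋂ i, {A | 0 < A i i} := by
    ext A; simp
  rw [this]
  exact isOpen_iInter_of_finite fun i => isOpen_lt continuous_const (contDiff_entry i i).continuous

theorem contDiffOn_logD :
    ContDiffOn ℝ ∞ (logD (n := n)) {A : Matrix (Fin n) (Fin n) ℝ | ∀ i, 0 < A i i} := by
  apply contDiffOn_matrix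
  intro i j
  by_cases hij : i = j
  · subst hij
    have : (fun A : Matrix (Fin n) (Fin n) ℝ => logD A i i) = fun A => Real.log (A i i) := by
      funext A; simp [logD]
    rw [this]
    exact (contDiff_entry i i).contDiffOn.log fun A hA => (hA i).ne'
  · have : (fun A : Matrix (Fin n) (Fin n) ℝ => logD A i j) = fun A => A i j := by
      funext A; simp [logD, hij]
    rw [this]
    exact (contDiff_entry i j).contDiffOn

theorem contDiffOn_expD (s : Set (Matrix (Fin n) (Fin n) ℝ)) :
    ContDiffOn ℝ ∞ (expD (n := n)) s := by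
  apply contDiffOn_matrix
  intro i j
  by_cases hij : i = j
  · subst hij
    have : (fun A : Matrix (Fin n) (Fin n) ℝ => expD A i i) = fun A => Real.exp (A i i) := by
      funext A; simp [expD]
    rw [this]
    exact (contDiff_entry i i).exp.contDiffOn
  · have : (fun A : Matrix (Fin n) (Fin n) ℝ => expD A i j) = fun A => A i j := by
      funext A; simp [expD, hij]
    rw [this]
    exact (contDiff_entry i j).contDiffOn

/-- The logarithmic chart. -/
noncomputable def logChart (n : ℕ) :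
    OpenPartialHomeomorph (Matrix (Fin n) (Fin n) ℝ) (Matrix (Fin n) (Fin n) ℝ) where
  toFun := logD
  invFun := expD
  source := {A | ∀ i, 0 < A i i}
  target := univ
  map_source' := fun _ _ => mem_univ _
  map_target' := fun A _ i => by simp [expD, Real.exp_pos]
  left_inv' := fun A hA => by
    ext i j
    by_cases hij : i = j
    · subst hij
      simp [expD, logD, Real.exp_log (hA i)]
    · simp [expD, logD, hij]
  right_inv' := fun A _ => by
    ext i j
    by_cases hij : i = j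
    · subst hij
      simp [expD, logD]
    · simp [expD, logD, hij]
  open_source := isOpen_posDiag
  open_target := isOpen_univ
  continuousOn_toFun := contDiffOn_logD.continuousOn
  continuousOn_invFun := (contDiffOn_expD univ).continuousOn

/-! ### The Cayley chart -/

/-- The Cayley transform. -/
noncomputable def cayley (A : Matrix (Fin n) (Fin n) ℝ) : Matrix (Fin n) (Fin n) ℝ :=
  (1 - A) * Ring.inverse (1 + A)

theorem isOpen_unit : IsOpen {A : Matrix (Fin n) (Fin n) ℝ | IsUnit (1 + A)} :=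
  Units.isOpen.preimage (continuous_const.add continuous_id)

theorem isUnit_two_smul {A : Matrix (Fin n) (Fin n) ℝ} (hA : IsUnit A) : IsUnit ((2 : ℝ) • A) := by
  rw [Algebra.smul_def]
  exact ((isUnit_iff_ne_zero.2 two_ne_zero).map (algebraMap ℝ (Matrix (Fin n) (Fin n) ℝ))).mul hA

theorem cayley_unit {A : Matrix (Fin n) (Fin n) ℝ} (hA : IsUnit (1 + A)) :
    IsUnit (1 + cayley A) := by
  have h1 : 1 + cayley A = (2 : ℝ) • Ring.inverse (1 + A) := by
    have h2 : (1 + A) * Ring.inverse (1 + A) = 1 := Ring.mul_inverse_cancel _ hA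
    calc 1 + cayley A = (1 + A) * Ring.inverse (1 + A) + (1 - A) * Ring.inverse (1 + A) := by
          rw [h2, cayley]
      _ = (2 : ℝ) • Ring.inverse (1 + A) := by
          rw [← add_mul, two_smul, ← one_mul (Ring.inverse (1 + A) + Ring.inverse (1 + A))]
          noncomm_ring
  rw [h1]
  have h3 : IsUnit (Ring.inverse (1 + A)) := by
    exact ⟨⟨Ring.inverse (1 + A), 1 + A, Ring.inverse_mul_cancel _ hA,
      Ring.mul_inverse_cancel _ hA⟩, rfl⟩
  exact isUnit_two_smul h3

theorem cayley_cayley {A : Matrix (Fin n) (Fin n) ℝ} (hA : IsUnit (1 + A)) :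
    cayley (cayley A) = A := by
  have hB := cayley_unit hA
  have h2 : (1 + A) * Ring.inverse (1 + A) = 1 := Ring.mul_inverse_cancel _ hA
  have h3 : Ring.inverse (1 + A) * (1 + A) = 1 := Ring.inverse_mul_cancel _ hA
  -- it suffices to show `1 - B = A (1 + B)`
  have h4 : 1 - cayley A = A * (1 + cayley A) := by
    have h5 : (1 - cayley A) * (1 + A) = A * (1 + cayley A) * (1 + A) := by
      have h6 : cayley A * (1 + A) = 1 - A := by
        rw [cayley, mul_assoc, h3, mul_one]
      calc (1 - cayley A) * (1 + A) = (1 + A) - cayley A * (1 + A) := by rw [sub_mul, one_mul]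
        _ = A * ((1 + A) + cayley A * (1 + A)) := by rw [h6]; noncomm_ring
        _ = A * (1 + cayley A) * (1 + A) := by rw [mul_assoc, add_mul, one_mul]
    exact hA.mul_right_cancel h5
  have h7 : (1 + cayley A) * Ring.inverse (1 + cayley A) = 1 := Ring.mul_inverse_cancel _ hB
  calc cayley (cayley A) = (1 - cayley A) * Ring.inverse (1 + cayley A) := rfl
    _ = A := by rw [h4, mul_assoc, h7, mul_one]

theorem contDiffOn_cayley :
    ContDiffOn ℝ ∞ (cayley (n := n)) {A : Matrix (Fin n) (Fin n) ℝ | IsUnit (1 + A)} := by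
  intro A hA
  apply ContDiffAt.contDiffWithinAt
  obtain ⟨u, hu⟩ := hA
  have h1 : ContDiffAt ℝ ∞ (fun A : Matrix (Fin n) (Fin n) ℝ => Ring.inverse (1 + A)) A := by
    have h2 : ContDiffAt ℝ ∞ (Ring.inverse : Matrix (Fin n) (Fin n) ℝ → _) (1 + A) := by
      rw [← hu]
      exact contDiffAt_ringInverse ℝ u
    exact ContDiffAt.comp A h2 (contDiffAt_const.add contDiffAt_id)
  exact (contDiffAt_const.sub contDiffAt_id).mul h1

/-- The Cayley chart. -/
noncomputable def cayleyChart (n : ℕ) :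
    OpenPartialHomeomorph (Matrix (Fin n) (Fin n) ℝ) (Matrix (Fin n) (Fin n) ℝ) where
  toFun := cayley
  invFun := cayley
  source := {A | IsUnit (1 + A)}
  target := {A | IsUnit (1 + A)}
  map_source' := fun _ hA => cayley_unit hA
  map_target' := fun _ hA => cayley_unit hA
  left_inv' := fun _ hA => cayley_cayley hA
  right_inv' := fun _ hA => cayley_cayley hA
  open_source := isOpen_unit
  open_target := isOpen_unit
  continuousOn_toFun := contDiffOn_cayley.continuousOn
  continuousOn_invFun := contDiffOn_cayley.continuousOn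

theorem orthogonal_iff_cayley {A : Matrix (Fin n) (Fin n) ℝ} (hA : IsUnit (1 + A)) :
    Aᵀ * A = 1 ↔ (cayley A)ᵀ = - cayley A := by
  set J := Ring.inverse (1 + A) with hJ
  have h3 : J * (1 + A) = 1 := Ring.inverse_mul_cancel _ hA
  have h6 : cayley A * (1 + A) = 1 - A := by
    rw [cayley, mul_assoc, h3, mul_one]
  have h7 : (1 + A)ᵀ * (cayley A)ᵀ = (1 - A)ᵀ := by rw [← transpose_mul, h6]
  have hAt : IsUnit (1 + A)ᵀ := (isUnit_transpose _).2 hA
  have key : (cayley A)ᵀ = - cayley A ↔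
      (1 + A)ᵀ * (cayley A)ᵀ * (1 + A) = (1 + A)ᵀ * (- cayley A) * (1 + A) := by
    constructor
    · intro h; rw [h]
    · intro h
      exact hAt.mul_left_cancel (hA.mul_right_cancel h)
  rw [key, h7, mul_assoc, neg_mul, h6]
  simp only [transpose_sub, transpose_add, transpose_one]
  constructor
  · intro h
    have e1 : (1 - Aᵀ) * (1 + A) = 1 + A - Aᵀ - Aᵀ * A := by noncomm_ring
    have e2 : (1 + Aᵀ) * (-(1 - A)) = -1 + A - Aᵀ + Aᵀ * A := by noncomm_ring
    rw [e1, e2, h]
    abel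
  · intro h
    have e1 : (1 - Aᵀ) * (1 + A) = 1 + A - Aᵀ - Aᵀ * A := by noncomm_ring
    have e2 : (1 + Aᵀ) * (-(1 - A)) = -1 + A - Aᵀ + Aᵀ * A := by noncomm_ring
    rw [e1, e2] at h
    have e3 : (2 : ℝ) • (Aᵀ * A) = (2 : ℝ) • (1 : Matrix (Fin n) (Fin n) ℝ) := by
      rw [two_smul, two_smul]
      have e4 : (1 + A - Aᵀ - Aᵀ * A) + (Aᵀ * A) + 1 - A + Aᵀ =
        (-1 + A - Aᵀ + Aᵀ * A) + (Aᵀ * A) + 1 - A + Aᵀ := by rw [h]
      have e5 : (1 + A - Aᵀ - Aᵀ * A) + (Aᵀ * A) + 1 - A + Aᵀ = 1 + 1 := by abel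
      have e6 : (-1 + A - Aᵀ + Aᵀ * A) + (Aᵀ * A) + 1 - A + Aᵀ = Aᵀ * A + Aᵀ * A := by abel
      rw [e5, e6] at e4
      exact e4.symm
    exact smul_right_injective _ (two_ne_zero) e3

theorem det_of_orthogonal {A : Matrix (Fin n) (Fin n) ℝ} (hA : IsUnit (1 + A))
    (ho : Aᵀ * A = 1) : A.det = 1 := by
  have ho' : A * Aᵀ = 1 := mul_eq_one_comm.1 ho
  have h1 : 1 + A = A * (1 + A)ᵀ := by
    rw [transpose_add, transpose_one, mul_add, mul_one, ho', add_comm]
  have h2 : (1 + A).det = A.det * (1 + A).det := by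
    conv_lhs => rw [h1, det_mul, det_transpose]
  have h3 : (1 + A).det ≠ 0 := ((Matrix.isUnit_iff_isUnit_det _).1 hA).ne_zero
  exact (mul_eq_right₀ h3).1 h2.symm

/-! ### The tangent spaces and their dimensions -/

/-- The number of pairs `j < i`. -/
def cardLT (n : ℕ) : ℕ := Fintype.card {p : Fin n × Fin n // p.2 < p.1}

theorem card_le_add (n : ℕ) :
    Fintype.card {p : Fin n × Fin n // p.1 ≤ p.2} + cardLT n = n * n := by
  have h1 := Fintype.card_subtype_compl (fun p : Fin n × Fin n => p.2 < p.1)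
  have h2 : Fintype.card {p : Fin n × Fin n // ¬ p.2 < p.1} =
      Fintype.card {p : Fin n × Fin n // p.1 ≤ p.2} := by
    apply Fintype.card_congr
    exact Equiv.subtypeEquivRight fun p => not_lt
  have h3 : cardLT n ≤ Fintype.card (Fin n × Fin n) := Fintype.card_subtype_le _
  have h4 : Fintype.card (Fin n × Fin n) = n * n := by simp
  rw [h2] at h1
  unfold cardLT at *
  omega

theorem two_cardLT (n : ℕ) : 2 * cardLT n + n = n * n := by
  have h1 := card_le_add n
  have h2 : Fintype.card {p : Fin n × Fin n // p.1 ≤ p.2} = cardLT n + n := by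
    have h3 : Fintype.card {p : Fin n × Fin n // p.1 ≤ p.2} =
        Fintype.card ({p : Fin n × Fin n // p.2 < p.1} ⊕ Fin n) := by
      apply Fintype.card_congr
      refine ⟨fun p => if h : p.1.1 < p.1.2 then Sum.inl ⟨(p.1.2, p.1.1), h⟩ else Sum.inr p.1.1,
        fun q => q.elim (fun p => ⟨(p.1.2, p.1.1), p.2.le⟩) (fun i => ⟨(i, i), le_rfl⟩), ?_, ?_⟩
      · rintro ⟨⟨a, b⟩, h⟩
        by_cases hab : a < b
        · simp [hab]
        · have : a = b := le_antisymm h (not_lt.1 hab)
          subst this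
          simp
      · rintro (⟨⟨a, b⟩, h⟩ | i)
        · have h' : b < a := h
          simp [h']
        · simp
    rw [h3, Fintype.card_sum, Fintype.card_fin]
    rfl
  omega

/-- The linear conditions that define the logarithm of `setB`. -/
def linB (n : ℕ) : Matrix (Fin n) (Fin n) ℝ →ₗ[ℝ]
    ({p : Fin n × Fin n // p.2 < p.1} → ℝ) × ℝ × ℝ where
  toFun B := (fun p => B p.1.1 p.1.2, ∑ i, B i i, ∑ i : Fin n, (i : ℝ) * B i i)
  map_add' A B := by
    refine Prod.ext ?_ (Prod.ext ?_ ?_)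
    · rfl
    · simp [Finset.sum_add_distrib]
    · simp [Finset.sum_add_distrib, mul_add]
  map_smul' c B := by
    refine Prod.ext ?_ (Prod.ext ?_ ?_)
    · rfl
    · simp [Finset.mul_sum]
    · simp only [Matrix.smul_apply, smul_eq_mul, RingHom.id_apply, Prod.smul_mk, Finset.mul_sum]
      exact Finset.sum_congr rfl fun i _ => by ring

/-- The linear conditions that define the strictly lower triangular matrices. -/
def linN (n : ℕ) : Matrix (Fin n) (Fin n) ℝ →ₗ[ℝ] ({p : Fin n × Fin n // p.1 ≤ p.2} → ℝ) where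
  toFun B := fun p => B p.1.1 p.1.2
  map_add' _ _ := rfl
  map_smul' _ _ := rfl

/-- The linear conditions that define the skew-symmetric matrices. -/
def linK (n : ℕ) : Matrix (Fin n) (Fin n) ℝ →ₗ[ℝ] ({p : Fin n × Fin n // p.1 ≤ p.2} → ℝ) where
  toFun B := fun p => B p.1.1 p.1.2 + B p.1.2 p.1.1
  map_add' A B := by
    funext p
    simp only [Matrix.add_apply, Pi.add_apply]
    ring
  map_smul' c B := by
    funext p
    simp [mul_add]

theorem linB_surjective (m : ℕ) : Function.Surjective (linB (m + 2)) := by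
  rintro ⟨f, a, b⟩
  refine ⟨Matrix.of fun i j => if h : j < i then f ⟨(i, j), h⟩ else
    if i = j then (if i = 0 then a - b else if i = 1 then b else 0) else 0, ?_⟩
  have hne : (1 : Fin (m + 2)) ≠ 0 := by
    intro h
    have := congrArg Fin.val h
    simp at this
  refine Prod.ext ?_ (Prod.ext ?_ ?_)
  · funext p
    have := p.2
    simp [linB, this]
  · simp only [linB, LinearMap.coe_mk, AddHom.coe_mk, of_apply, lt_irrefl, dite_false, if_true]
    rw [Fin.sum_univ_succ, Fin.sum_univ_succ]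
    simp [Fin.succ_ne_zero]
    rw [Finset.sum_eq_zero]
    · ring
    · intro x _
      rw [if_neg]
      intro h
      have := congrArg Fin.val h
      simp at this
  · simp only [linB, LinearMap.coe_mk, AddHom.coe_mk, of_apply, lt_irrefl, dite_false, if_true]
    rw [Fin.sum_univ_succ, Fin.sum_univ_succ]
    simp [Fin.succ_ne_zero]
    rw [Finset.sum_eq_zero]
    intro x _
    rw [if_neg]
    intro h
    have := congrArg Fin.val h
    simp at this

theorem linN_surjective (n : ℕ) : Function.Surjective (linN n) := by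
  intro f
  refine ⟨Matrix.of fun i j => if h : i ≤ j then f ⟨(i, j), h⟩ else 0, ?_⟩
  funext p
  change (if h : p.1.1 ≤ p.1.2 then f ⟨(p.1.1, p.1.2), h⟩ else 0) = f p
  rw [dif_pos p.2]

theorem linK_surjective (n : ℕ) : Function.Surjective (linK n) := by
  intro f
  refine ⟨Matrix.of fun i j => if h : i < j then f ⟨(i, j), h.le⟩ else
    if h : i = j then f ⟨(i, j), h.le⟩ / 2 else 0, ?_⟩
  funext p
  obtain ⟨⟨i, j⟩, h⟩ := p
  rcases lt_or_eq_of_le h with h1 | h1
  · have h1' : i < j := h1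
    have h2 : ¬ j < i := h1'.not_gt
    have h3 : j ≠ i := h1'.ne'
    simp [linK, h1', h2, h3]
  · have h1' : i = j := h1
    subst h1'
    simp [linK]

theorem finrank_kerB (m : ℕ) :
    finrank ℝ (LinearMap.ker (linB (m + 2))) = cardLT (m + 2) + m := by
  have h1 := LinearMap.finrank_range_add_finrank_ker (linB (m + 2))
  rw [LinearMap.range_eq_top.2 (linB_surjective m), finrank_top, finrank_prod, finrank_prod,
    finrank_self, Module.finrank_fintype_fun_eq_card, finrank_matrix, Fintype.card_fin,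
    finrank_self, mul_one] at h1
  have h2 := two_cardLT (m + 2)
  have h3 : Fintype.card {p : Fin (m + 2) × Fin (m + 2) // p.2 < p.1} = cardLT (m + 2) := rfl
  rw [h3] at h1
  omega

theorem finrank_kerN (n : ℕ) : finrank ℝ (LinearMap.ker (linN n)) = cardLT n := by
  have h1 := LinearMap.finrank_range_add_finrank_ker (linN n)
  rw [LinearMap.range_eq_top.2 (linN_surjective n), finrank_top,
    Module.finrank_fintype_fun_eq_card, finrank_matrix, Fintype.card_fin,
    finrank_self, mul_one] at h1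
  have h2 := card_le_add n
  omega

theorem finrank_kerK (n : ℕ) : finrank ℝ (LinearMap.ker (linK n)) = cardLT n := by
  have h1 := LinearMap.finrank_range_add_finrank_ker (linK n)
  rw [LinearMap.range_eq_top.2 (linK_surjective n), finrank_top,
    Module.finrank_fintype_fun_eq_card, finrank_matrix, Fintype.card_fin,
    finrank_self, mul_one] at h1
  have h2 := card_le_add n
  omega

theorem mem_kerB {B : Matrix (Fin n) (Fin n) ℝ} : B ∈ LinearMap.ker (linB n) ↔
    (∀ i j, j < i → B i j = 0) ∧ ∑ i, B i i = 0 ∧ ∑ i : Fin n, (i : ℝ) * B i i = 0 := by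
  rw [LinearMap.mem_ker]
  constructor
  · intro h
    refine ⟨?_, congrArg (fun q => q.2.1) h, congrArg (fun q => q.2.2) h⟩
    intro i j hij
    exact congrFun (congrArg (fun q => q.1) h) ⟨(i, j), hij⟩
  · rintro ⟨h1, h2, h3⟩
    refine Prod.ext ?_ (Prod.ext h2 h3)
    funext p
    exact h1 _ _ p.2

theorem mem_kerN {B : Matrix (Fin n) (Fin n) ℝ} : B ∈ LinearMap.ker (linN n) ↔
    ∀ i j, i ≤ j → B i j = 0 := by
  rw [LinearMap.mem_ker]
  constructor
  · intro h i j hij
    exact congrFun h ⟨(i, j), hij⟩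
  · intro h
    funext p
    exact h _ _ p.2

theorem mem_kerK {B : Matrix (Fin n) (Fin n) ℝ} : B ∈ LinearMap.ker (linK n) ↔ Bᵀ = -B := by
  rw [LinearMap.mem_ker]
  constructor
  · intro h
    ext i j
    rcases le_total i j with hij | hij
    · have h1 := congrFun h ⟨(i, j), hij⟩
      simp only [linK, LinearMap.coe_mk, AddHom.coe_mk, Pi.zero_apply] at h1
      simp only [transpose_apply, Matrix.neg_apply]
      linarith
    · have h1 := congrFun h ⟨(j, i), hij⟩
      simp only [linK, LinearMap.coe_mk, AddHom.coe_mk, Pi.zero_apply] at h1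
      simp only [transpose_apply, Matrix.neg_apply]
      linarith
  · intro h
    funext p
    have h1 := congrFun (congrFun h p.1.1) p.1.2
    simp only [transpose_apply, Matrix.neg_apply] at h1
    simp only [linK, LinearMap.coe_mk, AddHom.coe_mk, Pi.zero_apply]
    linarith

/-! ### The three sets are submanifolds -/

theorem one_mem_setB (n : ℕ) : (1 : SpecialLinearGroup (Fin n) ℝ) ∈ setB n := by
  refine ⟨?_, ?_, ?_, ?_⟩
  · intro i j hij
    simp [hij.ne']
  · intro i; simp
  · simp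
  · simp

theorem one_mem_setN (n : ℕ) : (1 : SpecialLinearGroup (Fin n) ℝ) ∈ setN n := by
  refine ⟨?_, ?_⟩
  · intro i j hij
    simp [hij.ne]
  · intro i; simp

theorem one_mem_setK (n : ℕ) : (1 : SpecialLinearGroup (Fin n) ℝ) ∈ setK n := by
  refine ⟨by simp, ?_⟩
  have h1 : (1 : Matrix (Fin n) (Fin n) ℝ) + ((1 : SpecialLinearGroup (Fin n) ℝ) :
      Matrix (Fin n) (Fin n) ℝ) = (2 : ℝ) • (1 : Matrix (Fin n) (Fin n) ℝ) := by
    rw [two_smul]; simp
  rw [h1]
  exact isUnit_two_smul isUnit_one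

theorem exists_setB_iff {y : Matrix (Fin n) (Fin n) ℝ} (hy : ∀ i, 0 < y i i) :
    (∃ g ∈ setB n, (g : Matrix (Fin n) (Fin n) ℝ) = y) ↔ logD y ∈ LinearMap.ker (linB n) := by
  rw [mem_kerB]
  have hd : ∀ i, logD y i i = Real.log (y i i) := fun i => by simp [logD]
  have ho : ∀ i j, j < i → logD y i j = y i j := fun i j hij => by simp [logD, hij.ne']
  constructor
  · rintro ⟨g, hg, rfl⟩
    refine ⟨fun i j hij => ?_, ?_, ?_⟩
    · rw [ho i j hij]; exact hg.1 i j hij
    · rw [Finset.sum_congr rfl fun i _ => hd i]; exact hg.2.2.1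
    · have : ∑ i : Fin n, (i : ℝ) * logD (g : Matrix (Fin n) (Fin n) ℝ) i i =
          ∑ i : Fin n, (i : ℝ) * Real.log ((g : Matrix (Fin n) (Fin n) ℝ) i i) :=
        Finset.sum_congr rfl fun i _ => by rw [hd i]
      rw [this]; exact hg.2.2.2
  · rintro ⟨h1, h2, h3⟩
    have hu : ∀ i j, j < i → y i j = 0 := fun i j hij => by rw [← ho i j hij]; exact h1 i j hij
    rw [Finset.sum_congr rfl fun i _ => hd i] at h2
    have h3' : ∑ i : Fin n, (i : ℝ) * Real.log (y i i) = 0 := by
      rw [← h3]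
      exact Finset.sum_congr rfl fun i _ => by rw [hd i]
    have hdet : y.det = 1 := by
      rw [det_of_isUpperTriangular (fun i j hij => hu i j hij)]
      have h4 : Real.log (∏ i, y i i) = 0 := by
        rw [Real.log_prod (fun i _ => (hy i).ne')]; exact h2
      have h5 : 0 < ∏ i, y i i := Finset.prod_pos fun i _ => hy i
      rw [← Real.exp_log h5, h4, Real.exp_zero]
    exact ⟨⟨y, hdet⟩, ⟨hu, hy, h2, h3'⟩, rfl⟩

theorem isSubmanifold_setB (m : ℕ) : IsSubmanifold (cardLT (m + 2) + m) (setB (m + 2)) := by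
  refine ⟨⟨1, one_mem_setB _⟩, fun x hx => ⟨logChart (m + 2), contDiffOn_logD,
    contDiffOn_expD _, hx.2.1, LinearMap.ker (linB (m + 2)), finrank_kerB m, ?_⟩⟩
  intro y hy
  have h1 := exists_setB_iff hy
  have h2 : logD (x : Matrix (Fin (m + 2)) (Fin (m + 2)) ℝ) ∈ LinearMap.ker (linB (m + 2)) :=
    (exists_setB_iff hx.2.1).1 ⟨x, hx, rfl⟩
  rw [h1]
  constructor
  · intro h; exact Submodule.sub_mem _ h h2
  · intro h
    have h3 := Submodule.add_mem _ h h2
    have h4 : logChart (m + 2) y - logChart (m + 2) (x : Matrix (Fin (m + 2)) (Fin (m + 2)) ℝ) +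
      logD (x : Matrix (Fin (m + 2)) (Fin (m + 2)) ℝ) = logD y := by
      change logD y - logD (x : Matrix (Fin (m + 2)) (Fin (m + 2)) ℝ) +
        logD (x : Matrix (Fin (m + 2)) (Fin (m + 2)) ℝ) = logD y
      abel
    rwa [h4] at h3

theorem isSubmanifold_setN (n : ℕ) : IsSubmanifold (cardLT n) (setN n) := by
  refine ⟨⟨1, one_mem_setN _⟩, fun x hx => ⟨OpenPartialHomeomorph.refl _, contDiffOn_id,
    contDiffOn_id, mem_univ _, LinearMap.ker (linN n), finrank_kerN n, ?_⟩⟩
  intro y _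
  change _ ↔ y - (x : Matrix (Fin n) (Fin n) ℝ) ∈ _
  rw [mem_kerN]
  constructor
  · rintro ⟨g, hg, rfl⟩ i j hij
    rw [Matrix.sub_apply]
    rcases lt_or_eq_of_le hij with h | h
    · rw [hg.1 i j h, hx.1 i j h, sub_zero]
    · subst h
      rw [hg.2, hx.2, sub_self]
  · intro h
    have h0 : ∀ i j, i ≤ j → y i j = x i j := by
      intro i j hij
      have := h i j hij
      rw [Matrix.sub_apply] at this
      linarith
    have hu : ∀ i j, i < j → y i j = 0 := fun i j hij => by rw [h0 i j hij.le, hx.1 i j hij]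
    have hd : ∀ i, y i i = 1 := fun i => by rw [h0 i i le_rfl, hx.2]
    have hdet : y.det = 1 := by
      rw [det_of_isLowerTriangular y (fun i j hij => hu i j hij)]
      exact Finset.prod_eq_one fun i _ => hd i
    exact ⟨⟨y, hdet⟩, ⟨hu, hd⟩, rfl⟩

theorem exists_setK_iff {y : Matrix (Fin n) (Fin n) ℝ} (hy : IsUnit (1 + y)) :
    (∃ g ∈ setK n, (g : Matrix (Fin n) (Fin n) ℝ) = y) ↔ cayley y ∈ LinearMap.ker (linK n) := by
  rw [mem_kerK, ← orthogonal_iff_cayley hy]
  constructor
  · rintro ⟨g, hg, rfl⟩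
    exact hg.1
  · intro h
    exact ⟨⟨y, det_of_orthogonal hy h⟩, ⟨h, hy⟩, rfl⟩

theorem isSubmanifold_setK (n : ℕ) : IsSubmanifold (cardLT n) (setK n) := by
  refine ⟨⟨1, one_mem_setK _⟩, fun x hx => ⟨cayleyChart n, contDiffOn_cayley,
    contDiffOn_cayley, hx.2, LinearMap.ker (linK n), finrank_kerK n, ?_⟩⟩
  intro y hy
  have h1 := exists_setK_iff hy
  have h2 : cayley (x : Matrix (Fin n) (Fin n) ℝ) ∈ LinearMap.ker (linK n) :=
    (exists_setK_iff hx.2).1 ⟨x, hx, rfl⟩
  rw [h1]
  constructor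
  · intro h; exact Submodule.sub_mem _ h h2
  · intro h
    have h3 := Submodule.add_mem _ h h2
    have h4 : cayleyChart n y - cayleyChart n (x : Matrix (Fin n) (Fin n) ℝ) +
      cayley (x : Matrix (Fin n) (Fin n) ℝ) = cayley y := by
      change cayley y - cayley (x : Matrix (Fin n) (Fin n) ℝ) +
        cayley (x : Matrix (Fin n) (Fin n) ℝ) = cayley y
      abel
    rwa [h4] at h3

end Pool.Agent.R943.LieSL
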