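import Mathlib
import Pool.Agent.W964.LieExp.Defs

/-!
# The Lie exponent of `SL(n, ℝ)`

Definitions for `MP_9660fa_lc`. The set of quotients `Q(X)` and the triple product property are
those of `Pool.Agent.W964.LieExp.Defs`.
-/

set_option autoImplicit false

open Matrix Module Set
open scoped Matrix.Norms.Operator ContDiff MatrixGroups
open Pool.Agent.W964.LieExp (quotients TripleProductProperty)

namespace Pool.Agent.R943.LieSL

/-- A set `M` of elements of `SL(n, ℝ)` is a (nonempty, embedded, `C^∞`) submanifold of dimension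
`m`: around each of its points there is a `C^∞` diffeomorphism `e` between two open sets of the
space of all `n × n` matrices that maps `M` to an affine subspace of dimension `m`. (As `SL(n, ℝ)`
is an embedded submanifold of the space of matrices, the embedded submanifolds of `SL(n, ℝ)` are the
embedded submanifolds of the space of matrices that are contained in `SL(n, ℝ)`.) -/
def IsSubmanifold {n : ℕ} (m : ℕ) (M : Set (SpecialLinearGroup (Fin n) ℝ)) : Prop :=
  M.Nonempty ∧ ∀ x ∈ M, ∃ e : OpenPartialHomeomorph (Matrix (Fin n) (Fin n) ℝ)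
      (Matrix (Fin n) (Fin n) ℝ),
    ContDiffOn ℝ ∞ e e.source ∧ ContDiffOn ℝ ∞ e.symm e.target ∧
    (x : Matrix (Fin n) (Fin n) ℝ) ∈ e.source ∧
    ∃ W : Submodule ℝ (Matrix (Fin n) (Fin n) ℝ), finrank ℝ W = m ∧
      ∀ y ∈ e.source, ((∃ g ∈ M, (g : Matrix (Fin n) (Fin n) ℝ) = y) ↔
        e y - e (x : Matrix (Fin n) (Fin n) ℝ) ∈ W)

/-- The dimension `n² - 1` of `SL(n, ℝ)`. -/
def dimSL (n : ℕ) : ℝ := (n : ℝ) ^ 2 - 1

/-- The rank `n - 1` of `SL(n, ℝ)` (the dimension of the Cartan subalgebras of `𝔰𝔩(n, ℝ)`). -/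
def rankSL (n : ℕ) : ℝ := (n : ℝ) - 1

/-- The Lie exponent of `SL(n, ℝ)`: the infimum of `r / ((m₁ + m₂ + m₃) / 3 - (d - r) / 2)` over all
triples of submanifolds of `SL(n, ℝ)`, of dimensions `m₁`, `m₂`, `m₃`, that satisfy the triple
product property and for which the denominator is positive; here `d = n² - 1` is the dimension and
`r = n - 1` is the rank of `SL(n, ℝ)`. The infimum of the empty set is `⊤`. -/
noncomputable def lieExponent (n : ℕ) : EReal :=
  sInf {w : EReal | ∃ (M₁ M₂ M₃ : Set (SpecialLinearGroup (Fin n) ℝ)) (m₁ m₂ m₃ : ℕ),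
    IsSubmanifold m₁ M₁ ∧ IsSubmanifold m₂ M₂ ∧ IsSubmanifold m₃ M₃ ∧
    TripleProductProperty M₁ M₂ M₃ ∧
    0 < ((m₁ : ℝ) + m₂ + m₃) / 3 - (dimSL n - rankSL n) / 2 ∧
    w = ((rankSL n / (((m₁ : ℝ) + m₂ + m₃) / 3 - (dimSL n - rankSL n) / 2) : ℝ) : EReal)}

end Pool.Agent.R943.LieSL
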