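import Pool.Agent.R943.LieSL.Upper
import Pool.Agent.R943.LieSL.Constr

/-!
# The Lie exponent of `SL(n, ℝ)`: bounds
-/

set_option autoImplicit false

open Matrix Module Set
open scoped Matrix.Norms.Operator ContDiff
open Pool.Agent.W964.LieExp (quotients TripleProductProperty)

namespace Pool.Agent.R943.LieSL

/-- There is a triple of submanifolds of `SL(n, ℝ)` with the triple product property that exceeds
the critical total dimension `3 n (n - 1) / 2`. -/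
def HasLargeTriple (n : ℕ) : Prop :=
  ∃ (M₁ M₂ M₃ : Set (SpecialLinearGroup (Fin n) ℝ)) (m₁ m₂ m₃ : ℕ),
    IsSubmanifold m₁ M₁ ∧ IsSubmanifold m₂ M₂ ∧ IsSubmanifold m₃ M₃ ∧
    TripleProductProperty M₁ M₂ M₃ ∧
    3 * (n : ℝ) * ((n : ℝ) - 1) / 2 < (m₁ : ℝ) + m₂ + m₃

theorem denom_eq (n : ℕ) (m : ℝ) :
    m / 3 - (dimSL n - rankSL n) / 2 = (m - 3 * (n : ℝ) * ((n : ℝ) - 1) / 2) / 3 := by
  unfold dimSL rankSL
  ring

theorem lieExponent_lt_top_iff (n : ℕ) : lieExponent n < ⊤ ↔ HasLargeTriple n := by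
  unfold lieExponent
  rw [sInf_lt_iff]
  constructor
  · rintro ⟨w, ⟨M₁, M₂, M₃, m₁, m₂, m₃, h1, h2, h3, h4, h5, -⟩, -⟩
    refine ⟨M₁, M₂, M₃, m₁, m₂, m₃, h1, h2, h3, h4, ?_⟩
    rw [denom_eq] at h5
    linarith
  · rintro ⟨M₁, M₂, M₃, m₁, m₂, m₃, h1, h2, h3, h4, h5⟩
    refine ⟨_, ⟨M₁, M₂, M₃, m₁, m₂, m₃, h1, h2, h3, h4, ?_, rfl⟩, EReal.coe_lt_top _⟩
    rw [denom_eq]
    linarith

/-- The total dimension of a triple with the triple product property. -/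
theorem total_le {n : ℕ} (hn : 2 ≤ n) {S T U : Set (SpecialLinearGroup (Fin n) ℝ)} {m₁ m₂ m₃ : ℕ}
    (hS : IsSubmanifold m₁ S) (hT : IsSubmanifold m₂ T) (hU : IsSubmanifold m₃ U)
    (h : TripleProductProperty S T U) : 2 * (m₁ + m₂ + m₃) + 6 ≤ 3 * (n * n) := by
  rcases dims (by omega) hS hT hU h with h1 | h1
  · nlinarith
  · exact h1

theorem total_le_real {n : ℕ} (hn : 2 ≤ n) {S T U : Set (SpecialLinearGroup (Fin n) ℝ)}
    {m₁ m₂ m₃ : ℕ} (hS : IsSubmanifold m₁ S) (hT : IsSubmanifold m₂ T) (hU : IsSubmanifold m₃ U)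
    (h : TripleProductProperty S T U) :
    (m₁ : ℝ) + m₂ + m₃ - 3 * (n : ℝ) * ((n : ℝ) - 1) / 2 ≤ 3 * ((n : ℝ) - 2) / 2 := by
  have h1 := total_le hn hS hT hU h
  have h2 : 2 * ((m₁ : ℝ) + m₂ + m₃) + 6 ≤ 3 * ((n : ℝ) * n) := by exact_mod_cast h1
  linarith

/-- The Lie exponent of `SL(2, ℝ)` is infinite. -/
theorem not_hasLargeTriple_two : ¬ HasLargeTriple 2 := by
  rintro ⟨M₁, M₂, M₃, m₁, m₂, m₃, h1, h2, h3, h4, h5⟩
  have h6 := total_le_real le_rfl h1 h2 h3 h4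
  push_cast at h5 h6
  linarith

/-- For `n ≥ 3` there is a large triple; its total dimension is `3 n (n - 1) / 2 + (n - 2)`. -/
theorem exists_triple (m : ℕ) :
    ∃ (M₁ M₂ M₃ : Set (SpecialLinearGroup (Fin (m + 2)) ℝ)) (m₁ m₂ m₃ : ℕ),
    IsSubmanifold m₁ M₁ ∧ IsSubmanifold m₂ M₂ ∧ IsSubmanifold m₃ M₃ ∧
    TripleProductProperty M₁ M₂ M₃ ∧
    (m₁ : ℝ) + m₂ + m₃ = 3 * ((m + 2 : ℕ) : ℝ) * (((m + 2 : ℕ) : ℝ) - 1) / 2 + m := by
  refine ⟨_, _, _, _, _, _, isSubmanifold_setB m, isSubmanifold_setN (m + 2),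
    isSubmanifold_setK (m + 2), tpp (m + 2), ?_⟩
  have h1 := two_cardLT (m + 2)
  have h2 : 2 * (cardLT (m + 2) : ℝ) + ((m + 2 : ℕ) : ℝ) = ((m + 2 : ℕ) : ℝ) * ((m + 2 : ℕ) : ℝ) := by
    exact_mod_cast h1
  rw [Nat.cast_add (cardLT (m + 2)) m]
  linarith

theorem hasLargeTriple {n : ℕ} (hn : 3 ≤ n) : HasLargeTriple n := by
  obtain ⟨m, rfl⟩ : ∃ m, n = m + 2 := ⟨n - 2, by omega⟩
  obtain ⟨M₁, M₂, M₃, m₁, m₂, m₃, h1, h2, h3, h4, h5⟩ := exists_triple m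
  refine ⟨M₁, M₂, M₃, m₁, m₂, m₃, h1, h2, h3, h4, ?_⟩
  rw [h5]
  have : (0 : ℝ) < m := by
    have : 0 < m := by omega
    exact_mod_cast this
  linarith

/-- Upper bound for the Lie exponent. -/
theorem lieExponent_le {n : ℕ} (hn : 3 ≤ n) :
    lieExponent n ≤ ((3 * ((n : ℝ) - 1) / ((n : ℝ) - 2) : ℝ) : EReal) := by
  obtain ⟨m, rfl⟩ : ∃ m, n = m + 2 := ⟨n - 2, by omega⟩
  obtain ⟨M₁, M₂, M₃, m₁, m₂, m₃, h1, h2, h3, h4, h5⟩ := exists_triple m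
  have hm : (0 : ℝ) < m := by
    have : 0 < m := by omega
    exact_mod_cast this
  apply sInf_le
  refine ⟨M₁, M₂, M₃, m₁, m₂, m₃, h1, h2, h3, h4, ?_, ?_⟩
  · rw [denom_eq, h5]
    linarith
  · rw [denom_eq, h5, EReal.coe_eq_coe_iff, rankSL]
    have e1 : (3 * ((m + 2 : ℕ) : ℝ) * (((m + 2 : ℕ) : ℝ) - 1) / 2 + (m : ℝ) -
        3 * ((m + 2 : ℕ) : ℝ) * (((m + 2 : ℕ) : ℝ) - 1) / 2) / 3 = (m : ℝ) / 3 := by ring
    rw [e1]
    have e2 : ((m + 2 : ℕ) : ℝ) - 2 = m := by push_cast; ring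
    rw [e2]
    field_simp

/-- Lower bound for the Lie exponent. -/
theorem le_lieExponent {n : ℕ} (hn : 3 ≤ n) :
    ((2 * ((n : ℝ) - 1) / ((n : ℝ) - 2) : ℝ) : EReal) ≤ lieExponent n := by
  apply le_sInf
  rintro w ⟨M₁, M₂, M₃, m₁, m₂, m₃, h1, h2, h3, h4, h5, rfl⟩
  rw [EReal.coe_le_coe_iff]
  have h6 := total_le_real (by omega) h1 h2 h3 h4
  have hn' : (3 : ℝ) ≤ n := by exact_mod_cast hn
  have h7 : ((m₁ : ℝ) + m₂ + m₃) / 3 - (dimSL n - rankSL n) / 2 ≤ ((n : ℝ) - 2) / 2 := by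
    rw [denom_eq]; linarith
  rw [le_div_iff₀ h5]
  calc 2 * ((n : ℝ) - 1) / ((n : ℝ) - 2) *
        (((m₁ : ℝ) + m₂ + m₃) / 3 - (dimSL n - rankSL n) / 2) ≤
      2 * ((n : ℝ) - 1) / ((n : ℝ) - 2) * (((n : ℝ) - 2) / 2) := by
        apply mul_le_mul_of_nonneg_left h7
        apply div_nonneg <;> linarith
    _ = rankSL n := by
        unfold rankSL
        have : (n : ℝ) - 2 ≠ 0 := by
          intro h
          linarith
        field_simp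

/-- The Lie exponent of `SL(3, ℝ)` is `6`. -/
theorem lieExponent_three : lieExponent 3 = ((6 : ℝ) : EReal) := by
  apply le_antisymm
  · have h1 := lieExponent_le (n := 3) le_rfl
    have h2 : (3 * (((3 : ℕ) : ℝ) - 1) / (((3 : ℕ) : ℝ) - 2) : ℝ) = 6 := by norm_num
    rwa [h2] at h1
  · apply le_sInf
    rintro w ⟨M₁, M₂, M₃, m₁, m₂, m₃, h1, h2, h3, h4, h5, rfl⟩
    rw [EReal.coe_le_coe_iff]
    have h6 := total_le (by norm_num) h1 h2 h3 h4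
    have h7 : m₁ + m₂ + m₃ ≤ 10 := by omega
    have h8 : (m₁ : ℝ) + m₂ + m₃ ≤ 10 := by exact_mod_cast h7
    have h9 : ((m₁ : ℝ) + m₂ + m₃) / 3 - (dimSL 3 - rankSL 3) / 2 ≤ 1 / 3 := by
      rw [denom_eq]
      push_cast
      linarith
    rw [le_div_iff₀ h5]
    have h10 : rankSL 3 = 2 := by unfold rankSL; norm_num
    rw [h10]
    linarith

end Pool.Agent.R943.LieSL
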