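import Pool.Agent.R943.LieSL.Defs
import Pool.Agent.Y576.LE.Sharp

/-!
# Dimension bounds for the triple product property in `SL(n, ℝ)`

Invariance of domain, applied in the space of all matrices to the map
`(x, y, λ) ↦ exp λ • x⁻¹ y`.
-/

set_option autoImplicit false

open Matrix Module Set Filter Topology
open scoped Matrix.Norms.Operator ContDiff
open Pool.Agent.W964.LieExp (quotients TripleProductProperty finrank_le_of_injOn)
open Pool.Agent.Y576.LE (image_mem_nhds_of_injOn)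

namespace Pool.Agent.R943.LieSL

variable {n : ℕ}

/-- A local continuous parametrization of a submanifold around one of its points. -/
theorem IsSubmanifold.param {m : ℕ} {M : Set (SpecialLinearGroup (Fin n) ℝ)}
    (h : IsSubmanifold m M) {x : SpecialLinearGroup (Fin n) ℝ} (hx : x ∈ M) :
    ∃ W : Submodule ℝ (Matrix (Fin n) (Fin n) ℝ), finrank ℝ W = m ∧
      ∃ (V : Set W) (φ : W → SpecialLinearGroup (Fin n) ℝ), IsOpen V ∧ (0 : W) ∈ V ∧ φ 0 = x ∧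
        InjOn φ V ∧ MapsTo φ V M ∧
        ContinuousOn (fun w => (φ w : Matrix (Fin n) (Fin n) ℝ)) V := by
  obtain ⟨e, -, -, hxe, W, hW, heW⟩ := h.2 x hx
  classical
  refine ⟨W, hW, {w : W | e x + (w : Matrix (Fin n) (Fin n) ℝ) ∈ e.target},
    fun w => if h : ∃ g ∈ M, (g : Matrix (Fin n) (Fin n) ℝ) = e.symm (e x + w) then h.choose
      else x, ?_, ?_, ?_, ?_, ?_, ?_⟩
  · exact e.open_target.preimage (continuous_const.add continuous_subtype_val)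
  · simpa using e.map_source hxe
  all_goals
    have hex : ∀ w : W, e x + (w : Matrix (Fin n) (Fin n) ℝ) ∈ e.target →
        ∃ g ∈ M, (g : Matrix (Fin n) (Fin n) ℝ) = e.symm (e x + w) := by
      intro w hw
      rw [heW _ (e.map_target hw), e.right_inv hw]
      simp
    have hval : ∀ w : W, e x + (w : Matrix (Fin n) (Fin n) ℝ) ∈ e.target →
        (((if h : ∃ g ∈ M, (g : Matrix (Fin n) (Fin n) ℝ) = e.symm (e x + w) then h.choose
          else x : SpecialLinearGroup (Fin n) ℝ)) : Matrix (Fin n) (Fin n) ℝ) =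
          e.symm (e x + w) := by
      intro w hw
      rw [dif_pos (hex w hw)]
      exact (hex w hw).choose_spec.2
  · apply Subtype.ext
    have h0 : e x + ((0 : W) : Matrix (Fin n) (Fin n) ℝ) ∈ e.target := by
      simpa using e.map_source hxe
    have h1 := hval 0 h0
    refine h1.trans ?_
    simp [e.left_inv hxe]
  · intro w hw w' hw' hww
    have h1 := congrArg (fun g : SpecialLinearGroup (Fin n) ℝ => (g : Matrix (Fin n) (Fin n) ℝ)) hww
    simp only at h1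
    rw [hval w hw, hval w' hw'] at h1
    have h2 := e.symm.injOn hw hw' h1
    exact Subtype.ext (add_left_cancel h2)
  · intro w hw
    simp only [dif_pos (hex w hw)]
    exact (hex w hw).choose_spec.1
  · have hc : ContinuousOn (fun w : W => e.symm (e x + (w : Matrix (Fin n) (Fin n) ℝ)))
        {w : W | e x + (w : Matrix (Fin n) (Fin n) ℝ) ∈ e.target} := by
      apply e.continuousOn_symm.comp
      · exact (continuous_const.add continuous_subtype_val).continuousOn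
      · intro w hw
        exact hw
    apply hc.congr
    intro w hw
    exact hval w hw

theorem det_exp_smul (lam : ℝ) (g : SpecialLinearGroup (Fin n) ℝ) :
    (Real.exp lam • (g : Matrix (Fin n) (Fin n) ℝ)).det = Real.exp (n * lam) := by
  rw [det_smul, g.det_coe, mul_one, Fintype.card_fin, Real.exp_nat_mul]

theorem exp_smul_inj (hn : 1 ≤ n) {a b : ℝ} {g h : SpecialLinearGroup (Fin n) ℝ}
    (hab : Real.exp a • (g : Matrix (Fin n) (Fin n) ℝ) = Real.exp b • (h : Matrix _ _ ℝ)) :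
    a = b ∧ g = h := by
  have h1 := congrArg Matrix.det hab
  rw [det_exp_smul, det_exp_smul, Real.exp_eq_exp] at h1
  have hn0 : (n : ℝ) ≠ 0 := by
    have : n ≠ 0 := by omega
    exact_mod_cast this
  have h2 : a = b := mul_left_cancel₀ hn0 h1
  refine ⟨h2, ?_⟩
  subst h2
  apply Subtype.ext
  exact smul_right_injective _ (Real.exp_ne_zero a) hab

section

variable {W₁ W₂ : Submodule ℝ (Matrix (Fin n) (Fin n) ℝ)}

/-- The map `(p, q, λ) ↦ exp λ • (φ p)⁻¹ (ψ q)`. -/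
noncomputable def pairMap (φ : W₁ → SpecialLinearGroup (Fin n) ℝ)
    (ψ : W₂ → SpecialLinearGroup (Fin n) ℝ) (p : W₁ × W₂ × ℝ) : Matrix (Fin n) (Fin n) ℝ :=
  Real.exp p.2.2 • (((φ p.1)⁻¹ * ψ p.2.1 : SpecialLinearGroup (Fin n) ℝ) :
    Matrix (Fin n) (Fin n) ℝ)

theorem pairMap_continuousOn {φ : W₁ → SpecialLinearGroup (Fin n) ℝ}
    {ψ : W₂ → SpecialLinearGroup (Fin n) ℝ} {V₁ : Set W₁} {V₂ : Set W₂}
    (hφ : ContinuousOn (fun w => (φ w : Matrix (Fin n) (Fin n) ℝ)) V₁)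
    (hψ : ContinuousOn (fun w => (ψ w : Matrix (Fin n) (Fin n) ℝ)) V₂) :
    ContinuousOn (pairMap φ ψ) (V₁ ×ˢ (V₂ ×ˢ (univ : Set ℝ))) := by
  have h1 : ContinuousOn (fun p : W₁ × W₂ × ℝ => adjugate (φ p.1 : Matrix (Fin n) (Fin n) ℝ))
      (V₁ ×ˢ (V₂ ×ˢ (univ : Set ℝ))) := by
    apply (Continuous.matrix_adjugate continuous_id).comp_continuousOn
    exact hφ.comp continuous_fst.continuousOn (fun p hp => hp.1)
  have h2 : ContinuousOn (fun p : W₁ × W₂ × ℝ => (ψ p.2.1 : Matrix (Fin n) (Fin n) ℝ))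
      (V₁ ×ˢ (V₂ ×ˢ (univ : Set ℝ))) :=
    hψ.comp (continuous_fst.comp continuous_snd).continuousOn (fun p hp => hp.2.1)
  have h3 : ContinuousOn (fun p : W₁ × W₂ × ℝ => Real.exp p.2.2)
      (V₁ ×ˢ (V₂ ×ˢ (univ : Set ℝ))) :=
    (Real.continuous_exp.comp (continuous_snd.comp continuous_snd)).continuousOn
  have h4 := h3.smul (h1.mul h2)
  apply h4.congr
  intro p _
  simp [pairMap]

theorem pairMap_injOn (hn : 1 ≤ n) {S T U : Set (SpecialLinearGroup (Fin n) ℝ)}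
    (h : TripleProductProperty S T U) (hU : U.Nonempty)
    {φ : W₁ → SpecialLinearGroup (Fin n) ℝ}
    {ψ : W₂ → SpecialLinearGroup (Fin n) ℝ} {V₁ : Set W₁} {V₂ : Set W₂}
    (hφ : MapsTo φ V₁ S) (hψ : MapsTo ψ V₂ T) (iφ : InjOn φ V₁) (iψ : InjOn ψ V₂) :
    InjOn (pairMap φ ψ) (V₁ ×ˢ (V₂ ×ˢ (univ : Set ℝ))) := by
  intro p hp q hq hpq
  obtain ⟨h1, h2⟩ := exp_smul_inj hn hpq
  obtain ⟨h3, h4⟩ := h.inj hU (hφ hp.1) (hφ hq.1) (hψ hp.2.1) (hψ hq.2.1) h2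
  exact Prod.ext (iφ hp.1 hq.1 h3) (Prod.ext (iψ hp.2.1 hq.2.1 h4) h1)

end

theorem finrank_prod3 {m₁ m₂ : ℕ} {W₁ W₂ : Submodule ℝ (Matrix (Fin n) (Fin n) ℝ)}
    (h₁ : finrank ℝ W₁ = m₁) (h₂ : finrank ℝ W₂ = m₂) :
    finrank ℝ (W₁ × W₂ × ℝ) = m₁ + m₂ + 1 := by
  rw [finrank_prod, finrank_prod, h₁, h₂, finrank_self, add_assoc]

theorem finrank_mat : finrank ℝ (Matrix (Fin n) (Fin n) ℝ) = n * n := by
  rw [finrank_matrix, Fintype.card_fin, finrank_self, mul_one]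

/-- Two of the dimensions add up to at most `n² - 1`. -/
theorem dim_add_le (hn : 1 ≤ n) {S T U : Set (SpecialLinearGroup (Fin n) ℝ)} {m₁ m₂ : ℕ}
    (hS : IsSubmanifold m₁ S) (hT : IsSubmanifold m₂ T) (hU : U.Nonempty)
    (h : TripleProductProperty S T U) : m₁ + m₂ + 1 ≤ n * n := by
  obtain ⟨x, hx⟩ := hS.1
  obtain ⟨y, hy⟩ := hT.1
  obtain ⟨W₁, hW₁, V₁, φ, hV₁, h0₁, -, iφ, mφ, cφ⟩ := hS.param hx
  obtain ⟨W₂, hW₂, V₂, ψ, hV₂, h0₂, -, iψ, mψ, cψ⟩ := hT.param hy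
  have hO : IsOpen (V₁ ×ˢ (V₂ ×ˢ (univ : Set ℝ))) := hV₁.prod (hV₂.prod isOpen_univ)
  have := finrank_le_of_injOn _ hO (0, 0, 0) ⟨h0₁, h0₂, mem_univ _⟩ _
    (pairMap_continuousOn cφ cψ) (pairMap_injOn hn h hU mφ mψ iφ iψ)
  rwa [finrank_prod3 hW₁ hW₂, finrank_mat] at this

/-- If the third dimension is positive then the first two dimensions add up to at most
`n² - 2`. -/
theorem dim_add_lt (hn : 1 ≤ n) {S T U : Set (SpecialLinearGroup (Fin n) ℝ)} {m₁ m₂ m₃ : ℕ}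
    (hS : IsSubmanifold m₁ S) (hT : IsSubmanifold m₂ T) (hU : IsSubmanifold m₃ U)
    (h : TripleProductProperty S T U) (hm₃ : 1 ≤ m₃) : m₁ + m₂ + 2 ≤ n * n := by
  have hle := dim_add_le hn hS hT hU.1 h
  by_contra hlt
  have heq : m₁ + m₂ + 1 = n * n := by omega
  obtain ⟨x, hx⟩ := hS.1
  obtain ⟨y, hy⟩ := hT.1
  obtain ⟨z, hz⟩ := hU.1
  obtain ⟨W₁, hW₁, V₁, φ, hV₁, h0₁, hφ0, iφ, mφ, cφ⟩ := hS.param hx
  obtain ⟨W₂, hW₂, V₂, ψ, hV₂, h0₂, hψ0, iψ, mψ, cψ⟩ := hT.param hy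
  obtain ⟨W₃, hW₃, V₃, χ, hV₃, h0₃, hχ0, iχ, mχ, cχ⟩ := hU.param hz
  have hO : IsOpen (V₁ ×ˢ (V₂ ×ˢ (univ : Set ℝ))) := hV₁.prod (hV₂.prod isOpen_univ)
  have himg := image_mem_nhds_of_injOn (by rw [finrank_prod3 hW₁ hW₂, finrank_mat, heq])
    _ hO (0, 0, 0) ⟨h0₁, h0₂, mem_univ _⟩ _
    (pairMap_continuousOn cφ cψ) (pairMap_injOn hn h hU.1 mφ mψ iφ iψ)
  have hF0 : pairMap φ ψ (0, 0, 0) = ((x⁻¹ * y : SpecialLinearGroup (Fin n) ℝ) :
      Matrix (Fin n) (Fin n) ℝ) := by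
    simp only [pairMap, Real.exp_zero, one_smul, hφ0, hψ0]
  rw [hF0] at himg
  obtain ⟨w, hw⟩ : ∃ w : W₃, w ≠ 0 := by
    have : Nontrivial W₃ := Module.nontrivial_of_finrank_pos (R := ℝ) (by rw [hW₃]; omega)
    exact exists_ne 0
  have hcont0 : Tendsto (fun τ : ℝ => τ • w) (𝓝 0) (𝓝 (0 : W₃)) := by
    have h1 : Continuous (fun τ : ℝ => τ • w) := by fun_prop
    have h2 := h1.tendsto 0
    simpa using h2
  have htend : Tendsto (fun τ : ℝ => ((x⁻¹ * (z * (χ (τ • w))⁻¹) * y :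
      SpecialLinearGroup (Fin n) ℝ) : Matrix (Fin n) (Fin n) ℝ)) (𝓝 0)
      (𝓝 ((x⁻¹ * y : SpecialLinearGroup (Fin n) ℝ) : Matrix (Fin n) (Fin n) ℝ)) := by
    have h1 : ContinuousAt (fun w => (χ w : Matrix (Fin n) (Fin n) ℝ)) 0 :=
      cχ.continuousAt (hV₃.mem_nhds h0₃)
    have h2 : ContinuousAt (fun w => ((x⁻¹ * (z * (χ w)⁻¹) * y :
      SpecialLinearGroup (Fin n) ℝ) : Matrix (Fin n) (Fin n) ℝ)) 0 := by
      have h3 : ContinuousAt (fun w => adjugate (χ w : Matrix (Fin n) (Fin n) ℝ)) 0 :=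
        (Continuous.matrix_adjugate continuous_id).continuousAt.comp h1
      have h4 := ((continuousAt_const (y := ((x⁻¹ : SpecialLinearGroup (Fin n) ℝ) :
        Matrix (Fin n) (Fin n) ℝ))).mul ((continuousAt_const (y := (z :
        Matrix (Fin n) (Fin n) ℝ))).mul h3)).mul (continuousAt_const (y := (y :
        Matrix (Fin n) (Fin n) ℝ)))
      refine h4.congr (Eventually.of_forall fun w => ?_)
      simp
    have h5 : x⁻¹ * (z * (χ 0)⁻¹) * y = x⁻¹ * y := by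
      rw [hχ0, mul_inv_cancel, mul_one]
    have h6 := h2.tendsto
    simp only [h5] at h6
    exact h6.comp hcont0
  have hev1 : ∀ᶠ τ in 𝓝[≠] (0 : ℝ), ((x⁻¹ * (z * (χ (τ • w))⁻¹) * y :
      SpecialLinearGroup (Fin n) ℝ) : Matrix (Fin n) (Fin n) ℝ) ∈
      pairMap φ ψ '' (V₁ ×ˢ (V₂ ×ˢ (univ : Set ℝ))) :=
    nhdsWithin_le_nhds (htend himg)
  have hev2 : ∀ᶠ τ in 𝓝[≠] (0 : ℝ), τ • w ∈ V₃ :=
    nhdsWithin_le_nhds (hcont0 (hV₃.mem_nhds h0₃))
  obtain ⟨τ, h1, h2, h3⟩ := (hev1.and (hev2.and self_mem_nhdsWithin)).exists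
  obtain ⟨p, hp, hpF⟩ := h1
  have hpF' : Real.exp p.2.2 • (((φ p.1)⁻¹ * ψ p.2.1 : SpecialLinearGroup (Fin n) ℝ) :
      Matrix (Fin n) (Fin n) ℝ) = Real.exp 0 • ((x⁻¹ * (z * (χ (τ • w))⁻¹) * y :
      SpecialLinearGroup (Fin n) ℝ) : Matrix (Fin n) (Fin n) ℝ) := by
    rw [Real.exp_zero, one_smul]
    exact hpF
  obtain ⟨-, h4⟩ := exp_smul_inj hn hpF'
  have key := h (x * (φ p.1)⁻¹) ⟨x, hx, _, mφ hp.1, rfl⟩
    (ψ p.2.1 * y⁻¹) ⟨_, mψ hp.2.1, y, hy, rfl⟩ (χ (τ • w) * z⁻¹) ⟨_, mχ h2, z, hz, rfl⟩ (by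
      have e1 : x * (φ p.1)⁻¹ * (ψ p.2.1 * y⁻¹) * (χ (τ • w) * z⁻¹) =
          x * ((φ p.1)⁻¹ * ψ p.2.1) * y⁻¹ * (χ (τ • w) * z⁻¹) := by group
      rw [e1, h4]
      group)
  have h5 : χ (τ • w) = z := mul_inv_eq_one.1 key.2.2
  have h6 : τ • w = 0 := iχ h2 h0₃ (h5.trans hχ0.symm)
  rcases smul_eq_zero.1 h6 with h7 | h7
  · exact h3 h7
  · exact hw h7

/-- **Dimension bounds** for a triple of submanifolds of `SL(n, ℝ)` with the triple product
property. -/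
theorem dims (hn : 1 ≤ n) {S T U : Set (SpecialLinearGroup (Fin n) ℝ)} {m₁ m₂ m₃ : ℕ}
    (hS : IsSubmanifold m₁ S) (hT : IsSubmanifold m₂ T) (hU : IsSubmanifold m₃ U)
    (h : TripleProductProperty S T U) :
    m₁ + m₂ + m₃ + 1 ≤ n * n ∨ 2 * (m₁ + m₂ + m₃) + 6 ≤ 3 * (n * n) := by
  have h1 := dim_add_le hn hS hT hU.1 h
  have h2 := dim_add_le hn hT hU hS.1 h.rotate
  have h3 := dim_add_le hn hU hS hT.1 h.rotate.rotate
  have g1 := dim_add_lt hn hS hT hU h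
  have g2 := dim_add_lt hn hT hU hS h.rotate
  have g3 := dim_add_lt hn hU hS hT h.rotate.rotate
  rcases Nat.eq_zero_or_pos m₁ with e1 | e1
  · left; omega
  rcases Nat.eq_zero_or_pos m₂ with e2 | e2
  · left; omega
  rcases Nat.eq_zero_or_pos m₃ with e3 | e3
  · left; omega
  right
  have := g1 e3
  have := g2 e1
  have := g3 e2
  omega

end Pool.Agent.R943.LieSL
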